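import Mathlib

open scoped Computability

namespace Pool.Agent.Results.MP_233b81_lc.AntichainNegative

/-! ### Decompositions of a poset into `k` antichains: finite or uncountable -/

section Dichotomy

variable {α : Type*} [PartialOrder α]

/-- Decompositions of a poset into `k` antichains. -/
def Dec (α : Type*) [PartialOrder α] (k : ℕ) : Set (α → Fin k) :=
  {f | ∀ a b, a < b → f a ≠ f b}

/-- Strictly monotone maps to `{0, ..., k-1}`. -/
def Mono (α : Type*) [PartialOrder α] (k : ℕ) : Set (α → ℕ) :=
  {g | (∀ a, g a < k) ∧ StrictMono g}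

open Classical in
/-- Colours used strictly below `a`. -/
noncomputable def lowC {k : ℕ} (f : α → Fin k) (a : α) : Finset (Fin k) :=
  Finset.univ.filter fun c => ∃ x, x < a ∧ f x = c

open Classical in
/-- Colours used strictly above `a`. -/
noncomputable def upC {k : ℕ} (f : α → Fin k) (a : α) : Finset (Fin k) :=
  Finset.univ.filter fun c => ∃ x, a < x ∧ f x = c

theorem mem_lowC {k : ℕ} {f : α → Fin k} {a : α} {c : Fin k} :
    c ∈ lowC f a ↔ ∃ x, x < a ∧ f x = c := by simp [lowC]

theorem mem_upC {k : ℕ} {f : α → Fin k} {a : α} {c : Fin k} :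
    c ∈ upC f a ↔ ∃ x, a < x ∧ f x = c := by simp [upC]

variable {k : ℕ}

theorem not_mem_lowC {f : α → Fin k} (hf : f ∈ Dec α k) (a : α) : f a ∉ lowC f a := by
  rw [mem_lowC]
  rintro ⟨x, hx, h⟩
  exact hf x a hx h

theorem not_mem_upC {f : α → Fin k} (hf : f ∈ Dec α k) (a : α) : f a ∉ upC f a := by
  rw [mem_upC]
  rintro ⟨x, hx, h⟩
  exact hf a x hx h.symm

theorem lowC_lt {f : α → Fin k} {a b : α} (hab : a < b) :
    insert (f a) (lowC f a) ⊆ lowC f b := by
  intro c hc
  rw [Finset.mem_insert, mem_lowC] at hc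
  rw [mem_lowC]
  rcases hc with rfl | ⟨x, hx, rfl⟩
  · exact ⟨a, hab, rfl⟩
  · exact ⟨x, hx.trans hab, rfl⟩

theorem card_lowC_lt {f : α → Fin k} (hf : f ∈ Dec α k) {a b : α} (hab : a < b) :
    (lowC f a).card < (lowC f b).card := by
  have h := Finset.card_le_card (lowC_lt (f := f) hab)
  rw [Finset.card_insert_of_notMem (not_mem_lowC hf a)] at h
  omega

theorem card_lowC_lt_k {f : α → Fin k} (hf : f ∈ Dec α k) (a : α) : (lowC f a).card < k := by
  have h := Finset.card_le_card (Finset.subset_univ (insert (f a) (lowC f a)))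
  rw [Finset.card_insert_of_notMem (not_mem_lowC hf a), Finset.card_univ, Fintype.card_fin] at h
  omega

theorem mono_nonempty {f : α → Fin k} (hf : f ∈ Dec α k) :
    (fun a => (lowC f a).card) ∈ Mono α k :=
  ⟨fun a => card_lowC_lt_k hf a, fun _ _ hab => card_lowC_lt hf hab⟩

/-- The lowest level. -/
noncomputable def lo (α : Type*) [PartialOrder α] (k : ℕ) (a : α) : ℕ :=
  sInf ((fun g : α → ℕ => g a) '' Mono α k)

/-- The highest level. -/
noncomputable def hi (α : Type*) [PartialOrder α] (k : ℕ) (a : α) : ℕ :=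
  sSup ((fun g : α → ℕ => g a) '' Mono α k)

section nonempty

variable (hM : (Mono α k).Nonempty)

include hM

theorem lo_attained (a : α) : ∃ g ∈ Mono α k, g a = lo α k a := by
  have h := Nat.sInf_mem (hM.image (fun g : α → ℕ => g a))
  obtain ⟨g, hg, h⟩ := h
  exact ⟨g, hg, h⟩

omit hM in
theorem bdd (a : α) : BddAbove ((fun g : α → ℕ => g a) '' Mono α k) := by
  refine ⟨k, ?_⟩
  rintro _ ⟨g, hg, rfl⟩
  exact (hg.1 a).le

theorem hi_attained (a : α) : ∃ g ∈ Mono α k, g a = hi α k a := by
  have h := Nat.sSup_mem (hM.image (fun g : α → ℕ => g a)) (bdd a)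
  obtain ⟨g, hg, h⟩ := h
  exact ⟨g, hg, h⟩

omit hM in
theorem lo_le {g : α → ℕ} (hg : g ∈ Mono α k) (a : α) : lo α k a ≤ g a :=
  Nat.sInf_le ⟨g, hg, rfl⟩

omit hM in
theorem le_hi {g : α → ℕ} (hg : g ∈ Mono α k) (a : α) : g a ≤ hi α k a :=
  le_csSup (bdd a) ⟨g, hg, rfl⟩

theorem lo_le_hi (a : α) : lo α k a ≤ hi α k a := by
  obtain ⟨g, hg⟩ := hM
  exact (lo_le hg a).trans (le_hi hg a)

theorem lo_mem : lo α k ∈ Mono α k := by
  refine ⟨fun a => ?_, fun a b hab => ?_⟩
  · obtain ⟨g, hg, h⟩ := lo_attained hM a
    rw [← h]; exact hg.1 a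
  · obtain ⟨g, hg, h⟩ := lo_attained hM b
    rw [← h]
    exact (lo_le hg a).trans_lt (hg.2 hab)

theorem hi_mem : hi α k ∈ Mono α k := by
  refine ⟨fun a => ?_, fun a b hab => ?_⟩
  · obtain ⟨g, hg, h⟩ := hi_attained hM a
    rw [← h]; exact hg.1 a
  · obtain ⟨g, hg, h⟩ := hi_attained hM a
    rw [← h]
    exact (hg.2 hab).trans_le (le_hi hg b)

open Classical in
theorem lo_pred (a : α) (h : 0 < lo α k a) : ∃ b, b < a ∧ lo α k b + 1 = lo α k a := by
  by_contra hcon
  push Not at hcon
  have hm := lo_mem hM
  have hg : Function.update (lo α k) a (lo α k a - 1) ∈ Mono α k := by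
    refine ⟨fun b => ?_, fun b c hbc => ?_⟩
    · rcases eq_or_ne b a with rfl | hb
      · rw [Function.update_self]
        exact (Nat.sub_le _ _).trans_lt (hm.1 b)
      · rw [Function.update_of_ne hb]; exact hm.1 b
    · rcases eq_or_ne b a with rfl | hb
      · have hc : c ≠ b := hbc.ne'
        rw [Function.update_self, Function.update_of_ne hc]
        exact (Nat.sub_le _ _).trans_lt (hm.2 hbc)
      · rcases eq_or_ne c a with rfl | hc
        · rw [Function.update_self, Function.update_of_ne hb]
          have h1 := hm.2 hbc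
          have h2 := hcon b hbc
          omega
        · rw [Function.update_of_ne hb, Function.update_of_ne hc]
          exact hm.2 hbc
  have := lo_le hg a
  rw [Function.update_self] at this
  omega

open Classical in
theorem hi_succ (a : α) (h : hi α k a + 1 < k) : ∃ b, a < b ∧ hi α k b = hi α k a + 1 := by
  by_contra hcon
  push Not at hcon
  have hm := hi_mem hM
  have hg : Function.update (hi α k) a (hi α k a + 1) ∈ Mono α k := by
    refine ⟨fun b => ?_, fun b c hbc => ?_⟩
    · rcases eq_or_ne b a with rfl | hb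
      · rw [Function.update_self]
        exact h
      · rw [Function.update_of_ne hb]; exact hm.1 b
    · rcases eq_or_ne b a with rfl | hb
      · have hc : c ≠ b := hbc.ne'
        rw [Function.update_self, Function.update_of_ne hc]
        have h1 := hm.2 hbc
        have h2 := hcon c hbc
        omega
      · rcases eq_or_ne c a with rfl | hc
        · rw [Function.update_self, Function.update_of_ne hb]
          have h1 := hm.2 hbc
          omega
        · rw [Function.update_of_ne hb, Function.update_of_ne hc]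
          exact hm.2 hbc
  have := le_hi hg a
  rw [Function.update_self] at this
  omega

open Classical in
/-- Mixing the highest level on an up-set and the lowest level outside. -/
theorem mix_mem (U : Set α) (hU : ∀ a b, a ≤ b → a ∈ U → b ∈ U) :
    (fun a => if a ∈ U then hi α k a else lo α k a) ∈ Mono α k := by
  have hl := lo_mem hM
  have hh := hi_mem hM
  refine ⟨fun a => ?_, fun a b hab => ?_⟩
  · dsimp only
    split_ifs
    · exact hh.1 a
    · exact hl.1 a
  · dsimp only
    by_cases ha : a ∈ U
    · rw [if_pos ha, if_pos (hU a b hab.le ha)]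
      exact hh.2 hab
    · rw [if_neg ha]
      split_ifs
      · exact (hl.2 hab).trans_le (lo_le_hi hM b)
      · exact hl.2 hab

end nonempty

/-- Turn a bounded natural number valued map into a map to `Fin k`. -/
def toFin (g : α → ℕ) (hg : ∀ a, g a < k) : α → Fin k := fun a => ⟨g a, hg a⟩

theorem toFin_mem {g : α → ℕ} (hg : g ∈ Mono α k) : toFin g hg.1 ∈ Dec α k := by
  intro a b hab h
  have := congrArg Fin.val h
  simp only [toFin] at this
  exact (hg.2 hab).ne this

omit [PartialOrder α] in
theorem uncountable_of_injective {E : Type*} [Infinite E] {D : Set (α → Fin k)}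
    (Φ : Set E → (α → Fin k)) (hΦ : ∀ s, Φ s ∈ D) (hinj : Function.Injective Φ) :
    ¬ D.Countable := by
  intro hD
  have : Countable D := hD.to_subtype
  have hc : Countable (Set E) := by
    refine Function.Injective.countable (f := fun s => (⟨Φ s, hΦ s⟩ : D)) ?_
    intro s t h
    exact hinj (congrArg Subtype.val h)
  obtain ⟨φ, hφ⟩ := hc.exists_injective_nat
  exact Function.cantor_injective (fun s : Set E => Infinite.natEmbedding E (φ s))
    ((Infinite.natEmbedding E).injective.comp hφ)

open Classical in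
/-- If infinitely many elements have `lo < hi`, there are uncountably many decompositions. -/
theorem case_slack (hM : (Mono α k).Nonempty) (hB : {a : α | lo α k a < hi α k a}.Infinite) :
    ¬ (Dec α k).Countable := by
  have hl := lo_mem hM
  obtain ⟨i, hi'⟩ : ∃ i : Fin k, {a : α | lo α k a < hi α k a ∧ lo α k a = i}.Infinite := by
    by_contra hcon
    push Not at hcon
    apply hB
    refine (Set.finite_iUnion (fun i : Fin k => hcon i)).subset ?_
    intro a ha
    rw [Set.mem_iUnion]
    exact ⟨⟨lo α k a, hl.1 a⟩, ha, rfl⟩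
  set E : Set α := {a : α | lo α k a < hi α k a ∧ lo α k a = i} with hE
  have : Infinite E := hi'.to_subtype
  -- the up-set generated by a subset
  let U : Set E → Set α := fun s => {a | ∃ e ∈ s, (e : α) ≤ a}
  have hU : ∀ s, ∀ a b, a ≤ b → a ∈ U s → b ∈ U s := by
    rintro s a b hab ⟨e, he, hea⟩
    exact ⟨e, he, hea.trans hab⟩
  have hUE : ∀ s, ∀ e : E, (e : α) ∈ U s ↔ e ∈ s := by
    intro s e
    constructor
    · rintro ⟨e', he', hle⟩
      rcases hle.eq_or_lt with h | h
      · rwa [← Subtype.ext h]
      · have h1 := hl.2 h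
        have h2 := e.2.2
        have h3 := e'.2.2
        omega
    · intro he
      exact ⟨e, he, le_rfl⟩
  refine uncountable_of_injective (E := E)
    (fun s => toFin (fun a => if a ∈ U s then hi α k a else lo α k a) (mix_mem hM (U s) (hU s)).1)
    (fun s => toFin_mem (mix_mem hM (U s) (hU s))) ?_
  intro s t hst
  ext e
  have h := congrArg Fin.val (congrFun hst (e : α))
  simp only [toFin] at h
  have hlt := e.2.1
  rw [← hUE s e, ← hUE t e]
  by_cases h1 : (e : α) ∈ U s <;> by_cases h2 : (e : α) ∈ U t <;> simp only [h1, h2, if_true,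
    if_false] at h ⊢
  · omega
  · omega

/-- Tight elements at level `i` or `i+1`. -/
def V (α : Type*) [PartialOrder α] (k i : ℕ) : Set α :=
  {a | lo α k a = hi α k a ∧ (lo α k a = i ∨ lo α k a = i + 1)}

/-- Comparability between tight elements at level `i` or `i+1`. -/
def adj (α : Type*) [PartialOrder α] (k i : ℕ) (a b : α) : Prop :=
  a ∈ V α k i ∧ b ∈ V α k i ∧ a < b

/-- The equivalence relation generated. -/
def cls (α : Type*) [PartialOrder α] (k i : ℕ) : Setoid α := Relation.EqvGen.setoid (adj α k i)

open Classical in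
/-- If there are infinitely many classes, there are uncountably many decompositions. -/
theorem case_classes (hM : (Mono α k).Nonempty) (i : ℕ) (hik : i + 1 < k)
    (hQ : ((Quotient.mk (cls α k i)) '' V α k i).Infinite) : ¬ (Dec α k).Countable := by
  have hl := lo_mem hM
  have hh := hi_mem hM
  let U : Set α := {a | ∃ v ∈ V α k i, v ≤ a}
  have hU : ∀ a b, a ≤ b → a ∈ U → b ∈ U := by
    rintro a b hab ⟨e, he, hea⟩
    exact ⟨e, he, hea.trans hab⟩
  let g : α → ℕ := fun a => if a ∈ U then hi α k a else lo α k a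
  have hg : g ∈ Mono α k := mix_mem hM U hU
  have gV : ∀ a ∈ V α k i, g a = lo α k a := by
    intro a ha
    have hUa : a ∈ U := ⟨a, ha, le_rfl⟩
    simp only [g, if_pos hUa]
    exact ha.1.symm
  have gtight : ∀ a, lo α k a = hi α k a → g a = lo α k a := by
    intro a ha
    simp only [g]
    split_ifs
    · exact ha.symm
    · rfl
  -- elements outside `V` comparable with `V` have colours outside `{i, i+1}`
  have above : ∀ a b, a ∈ V α k i → b ∉ V α k i → a < b → g b ≠ i ∧ g b ≠ i + 1 := by
    intro a b ha hb hab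
    by_cases ht : lo α k b = hi α k b
    · rw [gtight b ht]
      have hb' : ¬ (lo α k b = i ∨ lo α k b = i + 1) := fun h => hb ⟨ht, h⟩
      push Not at hb'
      exact hb'
    · have hbU : b ∈ U := ⟨a, ha, hab.le⟩
      have h1 : g b = hi α k b := by simp only [g, if_pos hbU]
      have h2 := lo_le_hi hM b
      have h3 := hl.2 hab
      have h4 := ha.2
      omega
  have below : ∀ a b, a ∈ V α k i → b ∉ V α k i → b < a → g b ≠ i ∧ g b ≠ i + 1 := by
    intro a b ha hb hab
    by_cases ht : lo α k b = hi α k b
    · rw [gtight b ht]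
      have hb' : ¬ (lo α k b = i ∨ lo α k b = i + 1) := fun h => hb ⟨ht, h⟩
      push Not at hb'
      exact hb'
    · have h2 := lo_le_hi hM b
      have h3 := hh.2 hab
      have h4 := ha.2
      have h5 := ha.1
      have hbU : b ∉ U := by
        rintro ⟨v, hv, hvb⟩
        rcases hvb.eq_or_lt with rfl | hlt
        · exact hb hv
        · have h6 := hl.2 hlt
          have h7 := hv.2
          omega
      have h1 : g b = lo α k b := by simp only [g, if_neg hbU]
      omega
  set Q := (Quotient.mk (cls α k i)) '' V α k i with hQdef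
  have : Infinite Q := hQ.to_subtype
  let inS : Set Q → α → Prop := fun s a => a ∈ V α k i ∧ ∃ q ∈ s, Quotient.mk (cls α k i) a = q.1
  let h : Set Q → α → ℕ := fun s a => if inS s a then (if g a = i then i + 1 else i) else g a
  have hlt : ∀ s a, h s a < k := by
    intro s a
    simp only [h]
    have := hg.1 a
    split_ifs <;> omega
  have hV2 : ∀ s a, a ∈ V α k i → (h s a = i ∨ h s a = i + 1) := by
    intro s a ha
    have h1 := gV a ha
    have h2 := ha.2
    simp only [h]
    split_ifs <;> omega
  have hnV : ∀ s a, a ∉ V α k i → h s a = g a := by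
    intro s a ha
    simp only [h]
    rw [if_neg]
    exact fun hs => ha hs.1
  refine uncountable_of_injective (E := Q) (fun s => toFin (h s) (hlt s)) ?_ ?_
  · intro s a b hab heq
    have heq' : h s a = h s b := congrArg Fin.val heq
    by_cases ha : a ∈ V α k i
    · by_cases hb : b ∈ V α k i
      · have hcls : Quotient.mk (cls α k i) a = Quotient.mk (cls α k i) b :=
          Quotient.sound (Relation.EqvGen.rel _ _ ⟨ha, hb, hab⟩)
        have h1 := gV a ha
        have h2 := gV b hb
        have h3 := hl.2 hab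
        have h4 := ha.2
        have h5 := hb.2
        have hiff : inS s a ↔ inS s b := by
          constructor
          · rintro ⟨_, q, hq, he⟩; exact ⟨hb, q, hq, hcls ▸ he⟩
          · rintro ⟨_, q, hq, he⟩; exact ⟨ha, q, hq, hcls.trans he⟩
        simp only [h] at heq'
        by_cases hs : inS s b
        · rw [if_pos hs, if_pos (hiff.mpr hs)] at heq'
          split_ifs at heq' <;> omega
        · rw [if_neg hs, if_neg (fun h' => hs (hiff.mp h'))] at heq'
          omega
      · have h1 := above a b ha hb hab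
        have h2 := hV2 s a ha
        rw [heq', hnV s b hb] at h2
        omega
    · by_cases hb : b ∈ V α k i
      · have h1 := below b a hb ha hab
        have h2 := hV2 s b hb
        rw [← heq', hnV s a ha] at h2
        omega
      · rw [hnV s a ha, hnV s b hb] at heq'
        exact (hg.2 hab).ne heq'
  · intro s t hst
    ext q
    obtain ⟨v, hv, hvq⟩ := q.2
    have h1 := congrArg Fin.val (congrFun hst v)
    simp only [toFin] at h1
    have key : ∀ s : Set Q, inS s v ↔ q ∈ s := by
      intro s
      constructor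
      · rintro ⟨_, q', hq', he⟩
        have : q = q' := Subtype.ext (hvq.symm.trans he)
        rwa [this]
      · intro hq
        exact ⟨hv, q, hq, hvq⟩
    rw [← key s, ← key t]
    have h2 := gV v hv
    have h3 := hv.2
    simp only [h] at h1
    by_cases hs : inS s v <;> by_cases ht : inS t v <;> simp only [hs, ht, if_true, if_false] at h1 ⊢
    · split_ifs at h1 <;> omega
    · split_ifs at h1 <;> omega

/-! finite case -/

theorem card_lowC_ge (hM : (Mono α k).Nonempty) {f : α → Fin k} (hf : f ∈ Dec α k) :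
    ∀ n : ℕ, ∀ a : α, lo α k a = n → n ≤ (lowC f a).card := by
  intro n
  induction n with
  | zero => intro a _; exact Nat.zero_le _
  | succ n ih =>
    intro a ha
    obtain ⟨b, hb, hb2⟩ := lo_pred hM a (by omega)
    have h1 := ih b (by omega)
    have h2 := card_lowC_lt hf hb
    omega

theorem upC_gt {f : α → Fin k} {a b : α} (hab : a < b) :
    insert (f b) (upC f b) ⊆ upC f a := by
  intro c hc
  rw [Finset.mem_insert, mem_upC] at hc
  rw [mem_upC]
  rcases hc with rfl | ⟨x, hx, rfl⟩
  · exact ⟨b, hab, rfl⟩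
  · exact ⟨x, hab.trans hx, rfl⟩

theorem card_upC_ge (hM : (Mono α k).Nonempty) {f : α → Fin k} (hf : f ∈ Dec α k) :
    ∀ n : ℕ, ∀ a : α, hi α k a + n + 1 = k → n ≤ (upC f a).card := by
  intro n
  induction n with
  | zero => intro a _; exact Nat.zero_le _
  | succ n ih =>
    intro a ha
    obtain ⟨b, hb, hb2⟩ := hi_succ hM a (by omega)
    have h1 := ih b (by omega)
    have h2 := Finset.card_le_card (upC_gt (f := f) hb)
    rw [Finset.card_insert_of_notMem (not_mem_upC hf b)] at h2
    omega

theorem card_lowC_eq (hM : (Mono α k).Nonempty) {f : α → Fin k} (hf : f ∈ Dec α k) {a : α}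
    (ha : lo α k a = hi α k a) : (lowC f a).card = lo α k a := by
  have h1 := card_lowC_ge hM hf _ a rfl
  have hk := (hi_mem hM).1 a
  have h2 := card_upC_ge hM hf (k - 1 - hi α k a) a (by omega)
  have hdis : Disjoint (insert (f a) (lowC f a)) (upC f a) := by
    rw [Finset.disjoint_left]
    intro c hc hc'
    rw [Finset.mem_insert, mem_lowC] at hc
    rw [mem_upC] at hc'
    obtain ⟨y, hy, hyc⟩ := hc'
    rcases hc with rfl | ⟨x, hx, hxc⟩
    · exact hf a y hy hyc.symm
    · exact hf x y (hx.trans hy) (hxc.trans hyc.symm)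
  have h3 := Finset.card_le_card (Finset.subset_univ (insert (f a) (lowC f a) ∪ upC f a))
  rw [Finset.card_union_of_disjoint hdis, Finset.card_insert_of_notMem (not_mem_lowC hf a),
    Finset.card_univ, Fintype.card_fin] at h3
  omega

open Classical in
/-- The set of colours below the cut between the levels `i` and `i + 1`. -/
noncomputable def cut (i : ℕ) (f : α → Fin k) (v : α) : Finset (Fin k) :=
  if lo α k v = i then insert (f v) (lowC f v) else lowC f v

theorem cut_adj (hM : (Mono α k).Nonempty) {i : ℕ} {f : α → Fin k} (hf : f ∈ Dec α k) {a b : α}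
    (h : adj α k i a b) : cut i f a = cut i f b := by
  obtain ⟨ha, hb, hab⟩ := h
  have hl := (lo_mem hM).2 hab
  have h1 := ha.2
  have h2 := hb.2
  have ea : lo α k a = i := by omega
  have eb : lo α k b = i + 1 := by omega
  unfold cut
  rw [if_pos ea, if_neg (by omega)]
  apply Finset.eq_of_subset_of_card_le (lowC_lt hab)
  rw [Finset.card_insert_of_notMem (not_mem_lowC hf a), card_lowC_eq hM hf ha.1,
    card_lowC_eq hM hf hb.1]
  omega

theorem cut_cls (hM : (Mono α k).Nonempty) {i : ℕ} {f : α → Fin k} (hf : f ∈ Dec α k) {a b : α}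
    (h : Relation.EqvGen (adj α k i) a b) : cut i f a = cut i f b := by
  induction h with
  | rel x y h => exact cut_adj hM hf h
  | refl x => rfl
  | symm x y _ ih => exact ih.symm
  | trans x y z _ _ ih1 ih2 => exact ih1.trans ih2

open Classical in
theorem case_finite (hM : (Mono α k).Nonempty) (hB : {a : α | lo α k a < hi α k a}.Finite)
    (hQ : ∀ i, i + 1 < k → ((Quotient.mk (cls α k i)) '' V α k i).Finite) :
    (Dec α k).Finite := by
  have hBf : Finite {a : α | lo α k a < hi α k a} := hB.to_subtype
  have hQf : ∀ i : Fin (k - 1), Finite ((Quotient.mk (cls α k i)) '' V α k i) := fun i =>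
    (hQ i (by have := i.2; omega)).to_subtype
  -- representatives
  have hrep : ∀ i : ℕ, ∀ q : (Quotient.mk (cls α k i)) '' V α k i,
      ∃ v : α, v ∈ V α k i ∧ Quotient.mk (cls α k i) v = q.1 := fun i q => q.2
  choose rep hrep1 hrep2 using hrep
  let Ψ : Dec α k → ({a : α | lo α k a < hi α k a} → Fin k) ×
      ((i : Fin (k - 1)) → ((Quotient.mk (cls α k i)) '' V α k i) → Finset (Fin k)) :=
    fun f => (fun b => f.1 b.1, fun i q => cut i f.1 (rep i q))
  have hinj : Function.Injective Ψ := by
    intro f f' hff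
    have h1 : ∀ b, lo α k b < hi α k b → f.1 b = f'.1 b := by
      intro b hb
      exact congrFun (congrArg Prod.fst hff) ⟨b, hb⟩
    have h2 : ∀ i, i + 1 < k → ∀ v ∈ V α k i, cut i f.1 v = cut i f'.1 v := by
      intro i hi' v hv
      have h3 := congrFun (congrFun (congrArg Prod.snd hff) (⟨i, by omega⟩ : Fin (k - 1)))
        ⟨Quotient.mk (cls α k i) v, ⟨v, hv, rfl⟩⟩
      simp only [Ψ] at h3
      set w := rep i ⟨Quotient.mk (cls α k i) v, ⟨v, hv, rfl⟩⟩ with hw
      have h4 : Quotient.mk (cls α k i) w = Quotient.mk (cls α k i) v :=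
        hrep2 i ⟨Quotient.mk (cls α k i) v, ⟨v, hv, rfl⟩⟩
      have h5 : Relation.EqvGen (adj α k i) w v := Quotient.exact h4
      rw [← cut_cls hM f.2 h5, ← cut_cls hM f'.2 h5]
      exact h3
    apply Subtype.ext
    funext a
    by_cases ha : lo α k a < hi α k a
    · exact h1 a ha
    · have hle := lo_le_hi hM a
      have hta : lo α k a = hi α k a := by omega
      have hk := (lo_mem hM).1 a
      -- equality of the lower colour sets
      have hlow : lowC f.1 a = lowC f'.1 a := by
        rcases Nat.eq_zero_or_pos (lo α k a) with h0 | hpos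
        · have e1 := card_lowC_eq hM f.2 hta
          have e2 := card_lowC_eq hM f'.2 hta
          rw [h0, Finset.card_eq_zero] at e1 e2
          rw [e1, e2]
        · obtain ⟨i, hi'⟩ : ∃ i, lo α k a = i + 1 := ⟨lo α k a - 1, by omega⟩
          have h3 := h2 i (by omega) a ⟨hta, Or.inr hi'⟩
          unfold cut at h3
          rwa [if_neg (by omega), if_neg (by omega)] at h3
      have hins : insert (f.1 a) (lowC f.1 a) = insert (f'.1 a) (lowC f'.1 a) := by
        by_cases hlast : lo α k a + 1 = k
        · have e1 : insert (f.1 a) (lowC f.1 a) = Finset.univ := by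
            apply Finset.eq_univ_of_card
            rw [Finset.card_insert_of_notMem (not_mem_lowC f.2 a), card_lowC_eq hM f.2 hta,
              Fintype.card_fin]
            exact hlast
          have e2 : insert (f'.1 a) (lowC f'.1 a) = Finset.univ := by
            apply Finset.eq_univ_of_card
            rw [Finset.card_insert_of_notMem (not_mem_lowC f'.2 a), card_lowC_eq hM f'.2 hta,
              Fintype.card_fin]
            exact hlast
          rw [e1, e2]
        · have h3 := h2 (lo α k a) (by omega) a ⟨hta, Or.inl rfl⟩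
          unfold cut at h3
          rwa [if_pos rfl, if_pos rfl] at h3
      have hmem : f.1 a ∈ insert (f'.1 a) (lowC f'.1 a) := by
        rw [← hins]; exact Finset.mem_insert_self _ _
      rcases Finset.mem_insert.mp hmem with h | h
      · exact h
      · rw [← hlow] at h
        exact absurd h (not_mem_lowC f.2 a)
  have : Finite (Dec α k) := Finite.of_injective Ψ hinj
  exact Set.toFinite _

/-- The number of decompositions of a poset into `k` antichains is finite or uncountable. -/
theorem finite_or_uncountable (α : Type*) [PartialOrder α] (k : ℕ) :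
    (Dec α k).Finite ∨ ¬ (Dec α k).Countable := by
  rcases (Dec α k).eq_empty_or_nonempty with h | ⟨f, hf⟩
  · left; rw [h]; exact Set.finite_empty
  have hM : (Mono α k).Nonempty := ⟨_, mono_nonempty hf⟩
  by_cases hB : {a : α | lo α k a < hi α k a}.Finite
  · by_cases hQ : ∀ i, i + 1 < k → ((Quotient.mk (cls α k i)) '' V α k i).Finite
    · exact Or.inl (case_finite hM hB hQ)
    · push Not at hQ
      obtain ⟨i, hi', hQ⟩ := hQ
      exact Or.inr (case_classes hM i hi' hQ)
  · exact Or.inr (case_slack hM hB)

end Dichotomy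

/-! ### Effectively closed classes -/

/-- A tree: a set of finite strings closed under initial segments. -/
def IsTree (T : Set (List ℕ)) : Prop := ∀ σ τ : List ℕ, σ <+: τ → τ ∈ T → σ ∈ T

/-- The initial segment of `x` of length `n`. -/
def restrict (x : ℕ → ℕ) (n : ℕ) : List ℕ := (List.range n).map x

/-- The set `[T]` of infinite paths of `T`. -/
def paths (T : Set (List ℕ)) : Set (ℕ → ℕ) := {x | ∀ n, restrict x n ∈ T}

/-- Computably bounded `Π⁰₁` classes. -/
def IsCBClass (P : Set (ℕ → ℕ)) : Prop :=
  ∃ T : Set (List ℕ), IsTree T ∧ ComputablePred (fun σ : List ℕ => σ ∈ T) ∧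
    (∃ g : List ℕ → ℕ, Computable g ∧ ∀ (σ : List ℕ) (i : ℕ), σ ++ [i] ∈ T → i < g σ) ∧
    P = paths T

/-- `Q` represents `P`: there is a bijection from `P` to `Q` preserving Turing degrees. -/
def Represents (Q P : Set (ℕ → ℕ)) : Prop :=
  ∃ F : P ≃ Q, ∀ f : P, ((F f : ℕ → ℕ) : ℕ →. ℕ) ≡ᵀ ((f : ℕ → ℕ) : ℕ →. ℕ)

/-- A computable partial ordering `(A, R)`. -/
structure IsComputablePoset (A : Set ℕ) (R : ℕ → ℕ → Prop) : Prop where
  computable_set : ComputablePred (fun a : ℕ => a ∈ A)
  computable_rel : ComputablePred (fun p : ℕ × ℕ => R p.1 p.2)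
  sub : ∀ a b, R a b → a ∈ A ∧ b ∈ A
  refl : ∀ a ∈ A, R a a
  antisymm : ∀ a b, R a b → R b a → a = b
  trans : ∀ a b c, R a b → R b c → R a c

/-- `f` restricted to `A` is a decomposition of `(A, R)` into `k` antichains: values below `k`, and
no two distinct elements of the same fibre are comparable. -/
def IsAntichainDec (A : Set ℕ) (R : ℕ → ℕ → Prop) (k : ℕ) (f : ℕ → ℕ) : Prop :=
  (∀ a ∈ A, f a < k) ∧ ∀ a ∈ A, ∀ b ∈ A, a ≠ b → (R a b ∨ R b a) → f a ≠ f b

/-- The class of decompositions into `k` antichains, a map `f` on `A` being viewed as the element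
`n ↦ f (e n)` of `ω^ω` through the enumeration `e` of `A`. -/
def decEnum (A : Set ℕ) (R : ℕ → ℕ → Prop) (k : ℕ) (e : ℕ → ℕ) : Set (ℕ → ℕ) :=
  {x | ∃ f : ℕ → ℕ, IsAntichainDec A R k f ∧ ∀ n, x n = f (e n)}

open Classical in
/-- The same class, a map `f` on `A` being viewed as an element of `ω^ω` by putting the value `0`
outside `A` (this coding also covers `A = ∅`). -/
def decZero (A : Set ℕ) (R : ℕ → ℕ → Prop) (k : ℕ) : Set (ℕ → ℕ) :=
  {x | IsAntichainDec A R k x ∧ ∀ n, n ∉ A → x n = 0}

/-! ### The countable class -/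

/-- The tree of all strings with sum at most one. -/
def T1 : Set (List ℕ) := {σ | σ.sum ≤ 1}

theorem T1_tree : IsTree T1 := by
  rintro σ τ ⟨ρ, rfl⟩ h
  simp only [T1, Set.mem_ofPred_eq, List.sum_append] at h ⊢
  omega

theorem T1_computable : ComputablePred (fun σ : List ℕ => σ ∈ T1) := by
  have hsum : Primrec (fun σ : List ℕ => σ.sum) := by
    have h : Primrec (fun σ : List ℕ => σ.foldr (fun b s => b + s) 0) :=
      Primrec.list_foldr (f := fun σ : List ℕ => σ) (g := fun _ => 0)
        (h := fun _ p => p.1 + p.2) Primrec.id (Primrec.const 0)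
        (Primrec.nat_add.comp (Primrec.fst.comp Primrec.snd) (Primrec.snd.comp Primrec.snd)).to₂
    exact h
  have hp : PrimrecPred (fun σ : List ℕ => σ.sum ≤ 1) :=
    Primrec.nat_le.comp hsum (Primrec.const 1)
  exact hp.computablePred

theorem T1_cb : IsCBClass (paths T1) := by
  refine ⟨T1, T1_tree, T1_computable, ⟨fun _ => 2, Computable.const 2, ?_⟩, rfl⟩
  intro σ i h
  simp only [T1, Set.mem_ofPred_eq, List.sum_append, List.sum_singleton] at h
  show i < 2
  omega

theorem sum_restrict (x : ℕ → ℕ) (n : ℕ) : (restrict x n).sum = ∑ i ∈ Finset.range n, x i := by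
  unfold restrict
  induction n with
  | zero => simp
  | succ n ih => rw [List.range_succ, List.map_append, List.sum_append, ih, Finset.sum_range_succ]; simp

theorem mem_paths_T1 (x : ℕ → ℕ) : x ∈ paths T1 ↔ ∀ n, ∑ i ∈ Finset.range n, x i ≤ 1 := by
  simp only [paths, T1, Set.mem_ofPred_eq, sum_restrict]

/-- The `n`-th unit sequence. -/
def unitSeq (n : ℕ) : ℕ → ℕ := fun m => if m = n then 1 else 0

theorem unitSeq_mem (n : ℕ) : unitSeq n ∈ paths T1 := by
  rw [mem_paths_T1]
  intro m
  unfold unitSeq
  rw [Finset.sum_ite_eq']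
  split_ifs <;> omega

theorem unitSeq_injective : Function.Injective unitSeq := by
  intro a b h
  have := congrFun h a
  simp only [unitSeq, if_true] at this
  by_contra hab
  rw [if_neg hab] at this
  omega

theorem paths_T1_infinite : (paths T1).Infinite :=
  Set.infinite_of_injective_forall_mem unitSeq_injective unitSeq_mem

theorem paths_T1_countable : (paths T1).Countable := by
  refine ((Set.countable_singleton (fun _ : ℕ => 0)).union (Set.countable_range unitSeq)).mono ?_
  intro x hx
  rw [mem_paths_T1] at hx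
  by_cases h : ∀ n, x n = 0
  · left
    rw [Set.mem_singleton_iff]
    funext n
    exact h n
  · right
    push Not at h
    obtain ⟨n, hn⟩ := h
    refine ⟨n, ?_⟩
    funext m
    unfold unitSeq
    have h1 := hx (max n m + 1)
    have hn1 : n ∈ Finset.range (max n m + 1) := by
      rw [Finset.mem_range]; omega
    have hm1 : m ∈ Finset.range (max n m + 1) := by
      rw [Finset.mem_range]; omega
    have h2 := Finset.single_le_sum (f := x) (fun _ _ => Nat.zero_le _) hn1
    by_cases hmn : m = n
    · subst hmn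
      rw [if_pos rfl]
      omega
    · rw [if_neg hmn]
      have h3 : ∑ i ∈ ({n, m} : Finset ℕ), x i ≤ ∑ i ∈ Finset.range (max n m + 1), x i := by
        apply Finset.sum_le_sum_of_subset
        intro y hy
        rw [Finset.mem_insert, Finset.mem_singleton] at hy
        rcases hy with rfl | rfl
        · exact hn1
        · exact hm1
      rw [Finset.sum_pair (Ne.symm hmn)] at h3
      omega

/-! ### The main theorem -/

theorem no_equiv {P D : Set (ℕ → ℕ)} (hc : P.Countable) (hi : P.Infinite) {α : Type}
    [PartialOrder α] {k : ℕ} (φ : D → Dec α k) (hφ : Function.Injective φ) (ψ : Dec α k → D)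
    (hψ : Function.Injective ψ) (F : D ≃ P) : False := by
  have : Countable P := hc.to_subtype
  have : Infinite P := hi.to_subtype
  rcases finite_or_uncountable α k with h | h
  · have h1 : Finite (Dec α k) := h.to_subtype
    have h2 : Finite D := Finite.of_injective φ hφ
    have h3 : Finite P := Finite.of_equiv D F
    exact not_finite P
  · apply h
    have h2 : Countable D := F.injective.countable
    have h3 : Countable (Dec α k) := hψ.countable
    exact Set.countable_coe_iff.mp h3

/-- The partial order on the subtype. -/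
@[reducible] def subOrder {A : Set ℕ} {R : ℕ → ℕ → Prop} (h : IsComputablePoset A R) :
    PartialOrder A where
  le a b := R a b
  lt a b := R a b ∧ ¬ R b a
  lt_iff_le_not_ge _ _ := Iff.rfl
  le_refl a := h.refl a a.2
  le_trans a b c := h.trans a b c
  le_antisymm a b h1 h2 := Subtype.ext (h.antisymm a b h1 h2)

theorem dec_restrict {A : Set ℕ} {R : ℕ → ℕ → Prop} (h : IsComputablePoset A R) {k : ℕ}
    {f : ℕ → ℕ} (hf : IsAntichainDec A R k f) :
    (fun a : A => (⟨f a, hf.1 a a.2⟩ : Fin k)) ∈ @Dec A (subOrder h) k := by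
  let := subOrder h
  intro a b hab heq
  have h1 : R a b ∧ ¬ R b a := hab
  exact hf.2 a a.2 b b.2 (fun he => h1.2 (he ▸ h.refl a a.2)) (Or.inl h1.1) (congrArg Fin.val heq)

open Classical in
/-- Extension by zero. -/
noncomputable def ext0 {A : Set ℕ} {k : ℕ} (f : A → Fin k) : ℕ → ℕ :=
  fun n => if h : n ∈ A then (f ⟨n, h⟩ : ℕ) else 0

theorem ext0_mem {A : Set ℕ} {k : ℕ} (f : A → Fin k) (a : A) : ext0 f a = f a := by
  unfold ext0
  rw [dif_pos a.2]

theorem ext0_dec {A : Set ℕ} {R : ℕ → ℕ → Prop} (h : IsComputablePoset A R) {k : ℕ}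
    {f : A → Fin k} (hf : f ∈ @Dec A (subOrder h) k) : IsAntichainDec A R k (ext0 f) := by
  let := subOrder h
  refine ⟨fun a ha => ?_, fun a ha b hb hab hR heq => ?_⟩
  · rw [show a = ((⟨a, ha⟩ : A) : ℕ) from rfl, ext0_mem]
    exact (f _).2
  · rw [show a = ((⟨a, ha⟩ : A) : ℕ) from rfl, show b = ((⟨b, hb⟩ : A) : ℕ) from rfl, ext0_mem,
      ext0_mem] at heq
    rcases hR with hR | hR
    · exact hf ⟨a, ha⟩ ⟨b, hb⟩ ⟨hR, fun h' => hab (h.antisymm _ _ hR h')⟩ (Fin.ext heq)
    · exact hf ⟨b, hb⟩ ⟨a, ha⟩ ⟨hR, fun h' => hab (h.antisymm _ _ h' hR)⟩ (Fin.ext heq.symm)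

theorem zero_case {P : Set (ℕ → ℕ)} (hc : P.Countable) (hi : P.Infinite) {A : Set ℕ}
    {R : ℕ → ℕ → Prop} (h : IsComputablePoset A R) (k : ℕ) (F : decZero A R k ≃ P) : False := by
  let := subOrder h
  refine no_equiv (α := A) (k := k) hc hi
    (fun x : decZero A R k => ⟨fun a => ⟨x.1 a, x.2.1.1 a a.2⟩, dec_restrict h x.2.1⟩) ?_
    (fun f => ⟨ext0 f.1, ext0_dec h f.2, fun n hn => by unfold ext0; rw [dif_neg hn]⟩) ?_ F
  · intro x y hxy
    apply Subtype.ext
    funext n
    by_cases hn : n ∈ A
    · have := congrFun (congrArg Subtype.val hxy) ⟨n, hn⟩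
      exact congrArg Fin.val this
    · rw [x.2.2 n hn, y.2.2 n hn]
  · intro f g hfg
    apply Subtype.ext
    funext a
    have := congrFun (congrArg Subtype.val hfg) (a : ℕ)
    simp only [ext0_mem] at this
    exact Fin.ext this

theorem enum_case {P : Set (ℕ → ℕ)} (hc : P.Countable) (hi : P.Infinite) {A : Set ℕ}
    {R : ℕ → ℕ → Prop} (h : IsComputablePoset A R) (k : ℕ) (e : ℕ → ℕ) (he : Set.range e = A)
    (F : decEnum A R k e ≃ P) : False := by
  let := subOrder h
  have hmem : ∀ n, e n ∈ A := fun n => he ▸ Set.mem_range_self n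
  have hex : ∀ x : decEnum A R k e, ∃ f : ℕ → ℕ, IsAntichainDec A R k f ∧ ∀ n, x.1 n = f (e n) :=
    fun x => x.2
  choose f hf1 hf2 using hex
  refine no_equiv (α := A) (k := k) hc hi
    (fun x : decEnum A R k e => ⟨fun a => ⟨f x a, (hf1 x).1 a a.2⟩, dec_restrict h (hf1 x)⟩) ?_
    (fun g => ⟨fun n => ext0 g.1 (e n), ext0 g.1, ext0_dec h g.2, fun n => rfl⟩) ?_ F
  · intro x y hxy
    apply Subtype.ext
    funext n
    have h1 := congrFun (congrArg Subtype.val hxy) ⟨e n, hmem n⟩
    rw [hf2 x n, hf2 y n]
    exact congrArg Fin.val h1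
  · intro g g' hgg
    apply Subtype.ext
    funext a
    have ha : (a : ℕ) ∈ Set.range e := he.symm ▸ a.2
    obtain ⟨n, hn⟩ := ha
    have := congrFun (congrArg Subtype.val hgg) n
    simp only [hn, ext0_mem] at this
    exact Fin.ext this

/-- Negative answer to Q2: there is a computably bounded `Π⁰₁` class `P` which, for every computable
partial ordering `(A, R)` and every `k`, does not represent the class of decompositions of `(A, R)`
into `k` antichains (for either way of viewing decompositions as elements of `ω^ω`). -/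
theorem result : ∃ P : Set (ℕ → ℕ), IsCBClass P ∧
    ∀ (A : Set ℕ) (R : ℕ → ℕ → Prop), IsComputablePoset A R → ∀ k : ℕ,
      ¬ Represents P (decZero A R k) ∧
        ∀ e : ℕ → ℕ, Computable e → Set.range e = A → ¬ Represents P (decEnum A R k e) := by
  refine ⟨paths T1, T1_cb, fun A R h k => ⟨?_, fun e _ he => ?_⟩⟩
  · rintro ⟨F, -⟩
    exact zero_case paths_T1_countable paths_T1_infinite h k F
  · rintro ⟨F, -⟩
    exact enum_case paths_T1_countable paths_T1_infinite h k e he F

end Pool.Agent.Results.MP_233b81_lc.AntichainNegative
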